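import Pool.Agent.MP_f6b137_pr.H74.Base

/-! Lower bound for the variance of the number of sign changes of the model process. -/

namespace Pool.Agent.MP_f6b137_pr.H38

open MeasureTheory ProbabilityTheory Filter Topology Finset Pool.Agent.MP_f6b137_pr.H74
open scoped Real RealInnerProductSpace

noncomputable section

variable {D : ℕ}

lemma int_four (a : ES D) : Integrable (fun W : ES D => ⟪a, W⟫ ^ 4) (gam D) := by
  have h := (IsGaussian.memLp_dual (gam D) (innerSL ℝ a) (4 : ℕ) (by simp)).integrable_norm_pow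
    (by norm_num)
  refine h.congr (Eventually.of_forall fun W => ?_)
  simp only [innerSL_apply_apply, Real.norm_eq_abs]
  exact Even.pow_abs (by decide) _

lemma prod_le (x y : ℝ) : (x * y) ^ 2 ≤ x ^ 4 + y ^ 4 := by nlinarith [sq_nonneg (x ^ 2 - y ^ 2)]

lemma memLp_prod (a b : ES D) : MemLp (fun W : ES D => ⟪a, W⟫ * ⟪b, W⟫) 2 (gam D) := by
  have hm : Measurable fun W : ES D => ⟪a, W⟫ * ⟪b, W⟫ :=
    (measurable_inner' a).mul (measurable_inner' b)
  rw [memLp_two_iff_integrable_sq hm.aestronglyMeasurable]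
  refine ((int_four a).add (int_four b)).mono' (hm.pow_const 2).aestronglyMeasurable
    (Eventually.of_forall fun W => ?_)
  rw [Real.norm_of_nonneg (sq_nonneg _)]
  exact prod_le _ _

lemma four_unit {a : ES D} (ha : ‖a‖ = 1) :
    ∫ W, ⟪a, W⟫ ^ 4 ∂gam D = ∫ x, x ^ 4 ∂gaussianReal 0 1 := by
  have h := map_inner a
  rw [ha, one_pow, Real.toNNReal_one] at h
  rw [← h, integral_map (measurable_inner' a).aemeasurable (by fun_prop)]

lemma flip {a b c u : ES D} (hu : ‖u‖ = 1) (ha : ⟪a, u⟫ = 0) (hb : ⟪b, u⟫ = 0) (hc : ⟪c, u⟫ = 0) :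
    ∫ W, ⟪a, W⟫ * ⟪b, W⟫ * (⟪c, W⟫ * ⟪u, W⟫) ∂gam D = 0 := by
  set R := (ℝ ∙ u).reflection
  have h1 : ∀ W, R W = (2 * ⟪u, W⟫) • u - W := fun W => by
    simp only [R, Submodule.reflection_singleton_apply, hu]
    simp [two_smul, two_mul, add_smul]
  have h2 : ∫ W, ⟪a, W⟫ * ⟪b, W⟫ * (⟪c, W⟫ * ⟪u, W⟫) ∂gam D =
      ∫ W, ⟪a, R W⟫ * ⟪b, R W⟫ * (⟪c, R W⟫ * ⟪u, R W⟫) ∂gam D := by
    conv_lhs => rw [gam, ← stdGaussian_map R]
    rw [integral_map R.continuous.measurable.aemeasurable (by fun_prop)]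
  have h3 : ∀ W, ⟪a, R W⟫ * ⟪b, R W⟫ * (⟪c, R W⟫ * ⟪u, R W⟫) =
      -(⟪a, W⟫ * ⟪b, W⟫ * (⟪c, W⟫ * ⟪u, W⟫)) := fun W => by
    simp only [h1, inner_sub_right, real_inner_smul_right, ha, hb, hc,
      real_inner_self_eq_norm_sq, hu]
    ring
  simp only [h3, integral_neg] at h2
  linarith

/-- the test quadratic form -/
def Q (e : ℕ → ES D) (B : ℕ) (W : ES D) : ℝ := ∑ i ∈ range (B - 1), ⟪-e i, W⟫ * ⟪e (i + 1), W⟫

lemma memLp_Q (e : ℕ → ES D) (B : ℕ) : MemLp (Q e B) 2 (gam D) :=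
  memLp_finsetSum _ fun _ _ => memLp_prod _ _

lemma var_Q {e : ℕ → ES D} {B : ℕ} (he : ONf e B) :
    Var[Q e B; gam D] ≤ B * (2 * ∫ x, x ^ 4 ∂gaussianReal 0 1) := by
  have hM : 0 ≤ ∫ x : ℝ, x ^ 4 ∂gaussianReal 0 1 := integral_nonneg fun x => by positivity
  have hn : ∀ i < B, ‖e i‖ = 1 := fun i hi => by
    have := he i hi i hi
    rw [if_pos rfl, real_inner_self_eq_norm_sq] at this
    exact (pow_eq_one_iff_of_nonneg (norm_nonneg _) two_ne_zero).1 this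
  have ho : ∀ i < B, ∀ j < B, i ≠ j → ⟪e i, e j⟫ = 0 := fun i hi j hj h => by
    rw [he i hi j hj, if_neg h]
  refine (variance_le_expectation_sq (memLp_Q e B).1).trans ?_
  have hi : ∀ i j, Integrable (fun W : ES D => ⟪-e i, W⟫ * ⟪e (i + 1), W⟫ *
      (⟪-e j, W⟫ * ⟪e (j + 1), W⟫)) (gam D) := fun i j =>
    (memLp_prod _ _).integrable_mul (memLp_prod _ _)
  have hz : ∀ i j, i < j → j + 1 < B → ∫ W, ⟪-e i, W⟫ * ⟪e (i + 1), W⟫ *
      (⟪-e j, W⟫ * ⟪e (j + 1), W⟫) ∂gam D = 0 := fun i j h1 h2 =>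
    flip (hn _ h2) (by rw [inner_neg_left, ho i (by omega) _ h2 (by omega), neg_zero])
      (ho _ (by omega) _ h2 (by omega))
      (by rw [inner_neg_left, ho j (by omega) _ h2 (by omega), neg_zero])
  have e1 : (Q e B ^ 2) = fun W => ∑ i ∈ range (B - 1), ∑ j ∈ range (B - 1),
      ⟪-e i, W⟫ * ⟪e (i + 1), W⟫ * (⟪-e j, W⟫ * ⟪e (j + 1), W⟫) := by
    funext W; rw [Pi.pow_apply, sq, Q, sum_mul_sum]
  rw [e1, integral_finsetSum _ fun i _ => integrable_finsetSum _ fun j _ => hi i j]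
  refine (sum_le_card_nsmul _ _ (2 * ∫ x, x ^ 4 ∂gaussianReal 0 1) fun i hi' => ?_).trans ?_
  · have hiB := mem_range.1 hi'
    rw [integral_finsetSum _ fun j _ => hi i j, sum_eq_single_of_mem i hi' fun j hj hne => ?_]
    · rw [two_mul]
      conv_rhs => rw [← four_unit (hn (i + 1) (by omega))]
      nth_rewrite 1 [four_unit (hn (i + 1) (by omega)),
        ← four_unit (a := -e i) (by rw [norm_neg, hn i (by omega)])]
      rw [← integral_add (int_four _) (int_four _)]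
      refine integral_mono (hi i i) ((int_four _).add (int_four _)) fun W => ?_
      simpa only [sq] using prod_le _ _
    · have hjB := mem_range.1 hj
      rcases lt_or_gt_of_ne hne with h | h
      · rw [← hz j i h (by omega)]
        exact integral_congr_ae (Eventually.of_forall fun W => mul_comm _ _)
      · exact hz i j h (by omega)
  · rw [card_range, nsmul_eq_mul]
    refine mul_le_mul_of_nonneg_right ?_ (by positivity)
    exact_mod_cast Nat.sub_le B 1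

lemma sinc_facts {h : ℝ} (h0 : 0 < h) (h1 : h ≤ 1 / 4) :
    1.26 * h ^ 2 ≤ Real.sinc (π * (1 - h)) + Real.sinc (π * (1 + h)) ∧
    Real.sinc (π * (1 - h)) + Real.sinc (π * (1 + h)) ≤ 2.2 * h ^ 2 ∧
    1 - 2.5 * h ^ 2 ≤ Real.sinc (π * h) := by
  have p1 := Real.pi_gt_d2
  have p2 := Real.pi_lt_d2
  have hx : 0 < π * h := by positivity
  have e1 : Real.sinc (π * (1 - h)) + Real.sinc (π * (1 + h)) =
      2 * h * Real.sin (π * h) / (π * (1 - h ^ 2)) := by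
    have a1 : 0 < 1 - h := by linarith
    have a2 : 0 < 1 - h ^ 2 := by nlinarith
    rw [Real.sinc_of_ne_zero (by positivity), Real.sinc_of_ne_zero (by positivity), mul_sub,
      mul_add, mul_one, Real.sin_pi_sub, add_comm π, Real.sin_add_pi, ← mul_one_sub, add_comm _ π,
      ← mul_one_add, show 1 - h ^ 2 = (1 - h) * (1 + h) by ring]
    field_simp
    ring
  have s1 : 2 * h ≤ Real.sin (π * h) := by
    have := Real.mul_le_sin hx.le (by nlinarith)
    rwa [show 2 / π * (π * h) = 2 * h by field_simp] at this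
  have s2 : Real.sin (π * h) ≤ π * h := Real.sin_le hx.le
  have s3 := Real.sin_gt_sub_cube hx
  have a2 : 15 / 16 ≤ 1 - h ^ 2 := by nlinarith
  have a3 : 0 < h ^ 2 := by positivity
  refine ⟨?_, ?_, ?_⟩
  · rw [e1, le_div_iff₀ (by positivity)]
    have : π * (1 - h ^ 2) ≤ 3.15 := by nlinarith
    nlinarith [mul_le_mul_of_nonneg_left s1 h0.le, mul_le_mul_of_nonneg_left this a3.le]
  · rw [e1, div_le_iff₀ (by positivity)]
    nlinarith [mul_le_mul_of_nonneg_left s2 h0.le, mul_le_mul_of_nonneg_left a2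
      (show 0 ≤ π * h ^ 2 by positivity)]
  · rw [Real.sinc_of_ne_zero hx.ne', le_div_iff₀ hx]
    have : π ^ 2 ≤ 10 := by nlinarith
    nlinarith [mul_le_mul_of_nonneg_left this (show 0 ≤ π * h ^ 3 by positivity)]

lemma arith {h ε a b σ s11 s22 s12 g : ℝ} (h0 : 0 < h) (h1 : h ≤ 1 / 4) (e0 : 0 ≤ ε)
    (e1 : 100 * ε ≤ h ^ 2) (ha : 0 < a) (hb : 0 < b) (a1 : a ^ 2 * (1 - ε) ≤ 1)
    (a2 : 1 ≤ a ^ 2 * (1 + ε)) (b1 : b ^ 2 * (1 - ε) ≤ 1) (b2 : 1 ≤ b ^ 2 * (1 + ε))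
    (σ1 : 1.26 * h ^ 2 ≤ σ) (σ2 : σ ≤ 2.2 * h ^ 2) (t1 : |s11| ≤ ε) (t2 : |s22| ≤ ε)
    (t3 : |s12 - σ| ≤ 2 * ε) (t4 : 1 - 2.5 * h ^ 2 - ε ≤ g) :
    h ^ 2 ≤ -(b ^ 2 * s22 - a * b * s12 + a ^ 2 * s11) ∧
    |b ^ 2 * s22 + a * b * s12 + a ^ 2 * s11| ≤ 4 * h ^ 2 ∧ 2 - 2 * (a * b * g) ≤ 9 * h ^ 2 := by
  have hh : h ^ 2 ≤ 1 / 16 := by nlinarith
  have e2 : ε ≤ 1 / 1600 := by linarith
  have a3 : a ^ 2 ≤ 1.01 := by nlinarith
  have b3 : b ^ 2 ≤ 1.01 := by nlinarith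
  have a4 : 1 - ε ≤ a := by
    by_contra hc
    push Not at hc
    nlinarith [pow_lt_pow_left₀ hc ha.le two_ne_zero]
  have b4 : 1 - ε ≤ b := by
    by_contra hc
    push Not at hc
    nlinarith [pow_lt_pow_left₀ hc hb.le two_ne_zero]
  have c1 : 1 - 2 * ε ≤ a * b := by nlinarith [mul_le_mul a4 b4 (by linarith) ha.le]
  have c2 : a * b ≤ 1.01 := by nlinarith [sq_nonneg (a - b)]
  obtain ⟨u1, u2⟩ := abs_le.1 t1
  obtain ⟨v1, v2⟩ := abs_le.1 t2
  obtain ⟨w1, w2⟩ := abs_le.1 t3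
  have d1 : a ^ 2 * s11 ≤ 1.01 * ε := by nlinarith [sq_nonneg a]
  have d2 : -(1.01 * ε) ≤ a ^ 2 * s11 := by nlinarith [sq_nonneg a]
  have d3 : b ^ 2 * s22 ≤ 1.01 * ε := by nlinarith [sq_nonneg b]
  have d4 : -(1.01 * ε) ≤ b ^ 2 * s22 := by nlinarith [sq_nonneg b]
  have d5 : 1.24 * h ^ 2 ≤ s12 := by linarith
  have d6 : s12 ≤ 2.22 * h ^ 2 := by linarith
  have d7 : 0.99 * (1.24 * h ^ 2) ≤ a * b * s12 :=
    mul_le_mul (by linarith) d5 (by positivity) (by positivity)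
  have d8 : a * b * s12 ≤ 1.01 * (2.22 * h ^ 2) :=
    mul_le_mul c2 d6 (by nlinarith) (by norm_num)
  have d9 : (1 - 2 * ε) * (1 - 2.5 * h ^ 2 - ε) ≤ a * b * g :=
    mul_le_mul c1 t4 (by linarith) (by positivity)
  refine ⟨by linarith, abs_le.2 ⟨by nlinarith, by linarith⟩, by nlinarith⟩

lemma pair (hS : RowSINC) {c₁ : ℝ}
    (hT : ∀ (v v' : ES D), ‖v‖ = 1 → ‖v'‖ = 1 → v' ≠ v → ‖v' - v‖ ≤ 1 / 2 →
      ∃ κ₁ κ₂ : ℝ, |κ₁| ≤ ‖v' - v‖ ∧ c₁ ≤ κ₂ * ‖v' - v‖ ∧ ∀ a b : ES D,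
        cov[sc v v', fun W => ⟪a, W⟫ * ⟪b, W⟫; gam D] =
          κ₁ * (⟪a, v + v'⟫ * ⟪b, v + v'⟫) + κ₂ * (⟪a, v' - v⟫ * ⟪b, v' - v⟫))
    {e : ℕ → ES D} {B : ℕ} (he : ONf e B) {t h R : ℝ} (h0 : 0 < h) (h1 : h ≤ 1 / 6)
    (h2 : 72 * h ^ 2 ≤ c₁) (hR : 2 ≤ R) (hR2 : 100 ≤ h ^ 2 * (R - 1)) (ht : R ≤ t)
    (ht2 : t + h + R ≤ B) :
    c₁ * h / 6 ≤ cov[sc (Vb e B 0 t) (Vb e B 0 (t + h)), Q e B; gam D] := by
  have hB : 1 ≤ B := by
    have : (1 : ℝ) ≤ B := by linarith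
    exact_mod_cast this
  have hB' : ((B - 1 : ℕ) : ℝ) = B - 1 := by rw [Nat.cast_sub hB, Nat.cast_one]
  set ε := 1 / (R - 1) with hε
  have e0 : 0 < ε := by rw [hε]; exact one_div_pos.2 (by linarith)
  have e1 : 100 * ε ≤ h ^ 2 := by
    rw [hε, mul_one_div, div_le_iff₀ (by linarith)]; exact hR2
  have hV : ∀ x, Vb e B 0 x = ∑ i ∈ range B, sk x i • e i := fun x => by simp [Vb]
  have hc : ∀ x, ∀ i < B, ⟪e i, Vb e B 0 x⟫ = sk x i := fun x i hi => by
    rw [hV, he.inner_sum (fun i hi => mem_range.1 hi) _ hi, if_pos (mem_range.2 hi)]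
  have hG : ∀ x y, R ≤ x → R ≤ y → x + R ≤ B → y + R ≤ B →
      |⟪Vb e B 0 x, Vb e B 0 y⟫ - Real.sinc (π * (x - y))| ≤ ε := fun x y a1 a2 a3 a4 => by
    rw [hV, hV, he.inner_sum_sum fun i hi => mem_range.1 hi]
    exact hS.gram x y (R - 1) B (by linarith) (by linarith) (by linarith) (by linarith) (by linarith)
  have hG1 : ∀ x y, R ≤ x → R ≤ y → x + R ≤ B → y + R ≤ B →
      |∑ i ∈ range (B - 1), sk x i * sk y (i + 1) - Real.sinc (π * (x - y + 1))| ≤ ε :=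
    fun x y a1 a2 a3 a4 => by
    have := hS.gram x (y - 1) (R - 1) (B - 1) (by linarith) (by linarith) (by linarith)
      (by rw [hB']; linarith) (by rw [hB']; linarith)
    rw [show x - (y - 1) = x - y + 1 by ring] at this
    convert this using 5 with i
    simp only [sk]
    push_cast
    ring_nf
  set V := Vb e B 0 t
  set V' := Vb e B 0 (t + h)
  have n1 := abs_le.1 (hG t t ht ht (by linarith) (by linarith))
  have n2 := abs_le.1 (hG (t + h) (t + h) (by linarith) (by linarith) ht2 ht2)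
  have n3 := abs_le.1 (hG (t + h) t (by linarith) ht ht2 (by linarith))
  rw [sub_self, mul_zero, Real.sinc_zero, real_inner_self_eq_norm_sq] at n1 n2
  rw [add_sub_cancel_left] at n3
  have e2 : ε ≤ 1 / 100 := by nlinarith only [e1, h0, h1]
  have hV0 : 0 < ‖V‖ := lt_of_pow_lt_pow_left₀ 2 (norm_nonneg _) (by linarith [n1.1])
  have hV0' : 0 < ‖V'‖ := lt_of_pow_lt_pow_left₀ 2 (norm_nonneg _) (by linarith [n2.1])
  set a := ‖V‖⁻¹ with ha
  set b := ‖V'‖⁻¹ with hb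
  have a0 : 0 < a := inv_pos.2 hV0
  have b0 : 0 < b := inv_pos.2 hV0'
  have a1 : a ^ 2 * ‖V‖ ^ 2 = 1 := by rw [← mul_pow, inv_mul_cancel₀ hV0.ne', one_pow]
  have b1 : b ^ 2 * ‖V'‖ ^ 2 = 1 := by rw [← mul_pow, inv_mul_cancel₀ hV0'.ne', one_pow]
  obtain ⟨f1, f2, f3⟩ := sinc_facts h0 (by linarith)
  have m1 := hG1 t t ht ht (by linarith) (by linarith)
  have m2 := hG1 (t + h) (t + h) (by linarith) (by linarith) ht2 ht2
  have m3 := abs_le.1 (hG1 t (t + h) ht (by linarith) (by linarith) ht2)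
  have m4 := abs_le.1 (hG1 (t + h) t (by linarith) ht ht2 (by linarith))
  have sp : Real.sinc π = 0 := by rw [Real.sinc_of_ne_zero Real.pi_ne_zero]; simp
  rw [sub_self, zero_add, mul_one, sp, sub_zero] at m1 m2
  rw [show t - (t + h) + 1 = 1 - h by ring] at m3
  rw [show t + h - t + 1 = 1 + h by ring] at m4
  obtain ⟨r1, r2, r3⟩ := arith (g := ⟪V', V⟫) (s12 := ∑ i ∈ range (B - 1), sk t i * sk (t + h) (i + 1) +
      ∑ i ∈ range (B - 1), sk (t + h) i * sk t (i + 1)) h0 (by linarith) e0.le e1 a0 b0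
    (by nlinarith only [n1.1, sq_nonneg a, a1]) (by nlinarith only [n1.2, sq_nonneg a, a1])
    (by nlinarith only [n2.1, sq_nonneg b, b1]) (by nlinarith only [n2.2, sq_nonneg b, b1])
    f1 f2 m1 m2
    (abs_le.2 ⟨by linarith [m3.1, m4.1], by linarith [m3.2, m4.2]⟩) (by linarith [n3.1])
  have u1 : ‖a • V‖ = 1 := by
    rw [norm_smul, Real.norm_of_nonneg a0.le, inv_mul_cancel₀ hV0.ne']
  have u2 : ‖b • V'‖ = 1 := by
    rw [norm_smul, Real.norm_of_nonneg b0.le, inv_mul_cancel₀ hV0'.ne']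
  have u3 : ‖b • V' - a • V‖ ≤ 3 * h := by
    refine (pow_le_pow_iff_left₀ (norm_nonneg _) (by positivity) two_ne_zero).1 ?_
    rw [norm_sub_sq_real, u1, u2, real_inner_smul_left, real_inner_smul_right]
    linarith only [r3]
  have w : ∀ s : ℝ, ∑ i ∈ range (B - 1), ⟪-e i, b • V' + s • a • V⟫ * ⟪e (i + 1), b • V' + s • a • V⟫ =
      -(b ^ 2 * ∑ i ∈ range (B - 1), sk (t + h) i * sk (t + h) (i + 1) +
        s * (a * b * (∑ i ∈ range (B - 1), sk t i * sk (t + h) (i + 1) +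
          ∑ i ∈ range (B - 1), sk (t + h) i * sk t (i + 1))) +
        s ^ 2 * (a ^ 2 * ∑ i ∈ range (B - 1), sk t i * sk t (i + 1))) := fun s => by
    simp only [← sum_add_distrib, mul_sum, ← sum_neg_distrib]
    refine sum_congr rfl fun i hi => ?_
    have hi' := mem_range.1 hi
    simp only [inner_neg_left, inner_add_right, real_inner_smul_right, V, V']
    rw [hc _ i (by omega), hc _ i (by omega), hc _ (i + 1) (by omega), hc _ (i + 1) (by omega)]
    ring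
  have w1 := w 1
  have w2 := w (-1)
  rw [one_smul, add_comm (b • V')] at w1
  rw [neg_one_smul, ← sub_eq_add_neg] at w2
  have hne : b • V' ≠ a • V := fun hq => by
    rw [hq, sub_self] at w2
    simp only [inner_zero_right, mul_zero, sum_const_zero] at w2
    linarith only [w2, r1, pow_pos h0 2]
  obtain ⟨κ₁, κ₂, k1, k2, k3⟩ := hT _ _ u1 u2 hne (by linarith)
  have e3 : sc V V' = sc (a • V) (b • V') := funext fun W => (sc_smul (mul_pos a0 b0) _ _ W).symm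
  have e4 : cov[sc V V', Q e B; gam D] = ∑ i ∈ range (B - 1),
      cov[sc (a • V) (b • V'), fun W => ⟪-e i, W⟫ * ⟪e (i + 1), W⟫; gam D] := by
    rw [e3]
    exact covariance_fun_sum_right' (fun _ _ => memLp_prod _ _) (memLp_sc _ _)
  rw [e4]
  simp only [k3]
  rw [sum_add_distrib, ← mul_sum, ← mul_sum, w1, w2]
  have c0 : 0 < c₁ := lt_of_lt_of_le (by positivity) h2
  have k4 : 0 < κ₂ := by
    by_contra hc
    exact absurd (c0.trans_le k2) (not_lt.2
      (mul_nonpos_of_nonpos_of_nonneg (not_lt.1 hc) (norm_nonneg _)))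
  have k5 : c₁ ≤ κ₂ * (3 * h) := k2.trans (mul_le_mul_of_nonneg_left u3 k4.le)
  simp only [one_mul, one_pow, neg_mul, even_two, Even.neg_pow, ← sub_eq_add_neg]
  generalize b ^ 2 * _ + _ + _ = X at r2 ⊢
  generalize -(b ^ 2 * _ - _ + _) = Y at r1 ⊢
  have k6 : |κ₁ * -X| ≤ 3 * h * (4 * h ^ 2) := by
    rw [abs_mul, abs_neg]
    exact mul_le_mul (k1.trans u3) r2 (abs_nonneg _) (by positivity)
  nlinarith only [(abs_le.1 k6).1, mul_le_mul_of_nonneg_left r1 k4.le,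
    mul_le_mul_of_nonneg_left k5 h0.le, mul_le_mul_of_nonneg_left h2 h0.le]

theorem rowPOS : OfPOS := by
  rintro hI ⟨c₁, c0, hT⟩ hS -
  set M := 2 * ∫ x : ℝ, x ^ 4 ∂gaussianReal 0 1 with hM
  have hM0 : 0 ≤ M := mul_nonneg zero_le_two (integral_nonneg fun x => by positivity)
  obtain ⟨l₁, hl⟩ := pow_unbounded_of_one_lt (72 / c₁ + 6) (show (1 : ℝ) < 2 by norm_num)
  refine ⟨c₁ ^ 2 / (144 * (M + 1)), l₁, by positivity, fun l hl' => ?_⟩
  have hp : 72 / c₁ + 6 ≤ 2 ^ l := hl.le.trans (pow_le_pow_right₀ (by norm_num) hl')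
  have hq : 0 < 72 / c₁ := by positivity
  set h : ℝ := 1 / 2 ^ l with hh
  have h0 : 0 < h := by positivity
  have hh1 : h * 2 ^ l = 1 := by rw [hh]; field_simp
  have h1 : h ≤ 1 / 6 := by nlinarith
  have h2 : 72 * h ^ 2 ≤ c₁ := by
    have a1 : 72 / c₁ * h ≤ 1 := by nlinarith
    rw [div_mul_eq_mul_div, div_le_one c0] at a1
    nlinarith
  obtain ⟨R₁, hR₁⟩ := exists_nat_ge (100 / h ^ 2 + 2)
  refine ⟨R₁, fun R B hR hB => ?_⟩
  have hR' : 100 / h ^ 2 + 2 ≤ R := hR₁.trans (by exact_mod_cast hR)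
  have hq' : 0 < 100 / h ^ 2 := by positivity
  have hR2 : 100 ≤ h ^ 2 * (R - 1) := by
    rw [← div_le_iff₀' (by positivity)]; linarith
  have hB' : 4 * (R : ℝ) ≤ B := by exact_mod_cast hB
  set e : ℕ → ES B := fun i => if hi : i < B then EuclideanSpace.single ⟨i, hi⟩ 1 else 0 with he
  have hON : ONf e B := fun j hj k hk => by
    simp [he, hj, hk, EuclideanSpace.inner_single_left, Fin.ext_iff]
  have hmap := (hI B B 1 e (by rwa [one_mul])).2 0 one_pos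
  rw [← hmap, variance_map (measurable_Gm l R B).aemeasurable (measurable_blk e B 0).aemeasurable]
  have hf : Gm l R B ∘ blk e B 0 = fun W => ∑ j ∈ Ico R (B - R), ∑ k ∈ range (2 ^ l),
      sc (Vb e B 0 (j + k / 2 ^ l)) (Vb e B 0 (j + (k + 1) / 2 ^ l)) W :=
    funext fun W => Gm_blk l R e B 0 W
  have hm : MemLp (Gm l R B ∘ blk e B 0) 2 (gam B) := by
    rw [hf]; exact memLp_finsetSum _ fun _ _ => memLp_finsetSum _ fun _ _ => memLp_sc _ _
  have hcov : c₁ * B / 12 ≤ cov[Gm l R B ∘ blk e B 0, Q e B; gam B] := by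
    rw [hf, covariance_fun_sum_left'
      (fun _ _ => memLp_finsetSum _ fun _ _ => memLp_sc _ _) (memLp_Q e B)]
    refine le_trans ?_ (card_nsmul_le_sum _ _ (c₁ / 6) fun j hj => ?_)
    · rw [Nat.card_Ico, nsmul_eq_mul, Nat.cast_sub (by omega), Nat.cast_sub (by omega)]
      nlinarith
    · obtain ⟨j1, j2⟩ := mem_Ico.1 hj
      have j3 : (R : ℝ) ≤ j := by exact_mod_cast j1
      have j4 : (j : ℝ) + 1 + R ≤ B := by exact_mod_cast (by omega : j + 1 + R ≤ B)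
      rw [covariance_fun_sum_left' (fun _ _ => memLp_sc _ _) (memLp_Q e B)]
      refine le_trans (le_of_eq ?_) (card_nsmul_le_sum _ _ (c₁ * h / 6) fun k hk => ?_)
      · rw [card_range, nsmul_eq_mul]
        push_cast
        linear_combination (-c₁ / 6) * hh1
      · have k1 : (k : ℝ) + 1 ≤ 2 ^ l := by exact_mod_cast mem_range.1 hk
        have k2 : ((k : ℝ) + 1) / 2 ^ l ≤ 1 := (div_le_one (by positivity)).2 k1
        have k3 : (j : ℝ) + (k + 1) / 2 ^ l = j + k / 2 ^ l + h := by rw [hh]; ring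
        have k4 : (0 : ℝ) ≤ k / 2 ^ l := by positivity
        rw [k3]
        exact pair hS (hT B) hON h0 h1 h2 (R := R) (by linarith) hR2 (by linarith) (by linarith)
  have hcs := cov_sq_le hm (memLp_Q e B)
  have hv := variance_nonneg (Gm l R B ∘ blk e B 0) (gam B)
  have hB0 : (0 : ℝ) < B := by linarith
  have h3 := (pow_le_pow_left₀ (by positivity) hcov 2).trans
    (hcs.trans (mul_le_mul_of_nonneg_left (var_Q hON) hv))
  rw [div_mul_eq_mul_div, div_le_iff₀ (by positivity)]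
  refine le_of_mul_le_mul_left ?_ hB0
  nlinarith [mul_nonneg hv hB0.le]

end

end Pool.Agent.MP_f6b137_pr.H38
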